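import Mathlib
import Pool.Agent.Q167.VC.Stm

set_option autoImplicit false

/-!
# FRM: the dynamics in the moving frame
-/

namespace Pool.Agent.Q177.VC.Frm

open Pool.Agent.Q167.VC Matrix

/-- The action of the Jacobi matrix on a sequence. -/
theorem mulVec_JM (p : ℕ) (a w : ℂ) (u : ℕ → ℂ) (j : Fin p) :
    (JM p a w).mulVec (fun k => u k) j =
      (if (j : ℕ) = 0 then a * u 0 else u ((j : ℕ) - 1)) +
        (if (j : ℕ) + 1 = p then w * u (p - 1) else u ((j : ℕ) + 1)) := by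
  obtain ⟨j, hj⟩ := j
  simp only [mulVec, dotProduct, JM]
  rw [Fin.sum_univ_eq_sum_range (fun k => ((if j + 1 = k ∨ k + 1 = j then (1 : ℂ) else 0)
    + (if j = 0 ∧ k = 0 then a else 0) + (if j + 1 = p ∧ k + 1 = p then w else 0)) * u k) p]
  simp only [add_mul, Finset.sum_add_distrib]
  have h1 : ∑ k ∈ Finset.range p, (if j + 1 = k ∨ k + 1 = j then (1 : ℂ) else 0) * u k =
      (if j + 1 = p then 0 else u (j + 1)) + (if j = 0 then 0 else u (j - 1)) := by
    have e : ∀ k ∈ Finset.range p, (if j + 1 = k ∨ k + 1 = j then (1 : ℂ) else 0) * u k =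
        (if k = j + 1 then u k else 0) + (if k = j - 1 then (if j = 0 then 0 else u k) else 0) := by
      intro k hk
      rw [Finset.mem_range] at hk
      by_cases hA : k = j + 1
      · have h4 : ¬ (k = j - 1) := by omega
        rw [if_pos (Or.inl hA.symm), if_pos hA, if_neg h4, one_mul, add_zero]
      · by_cases hB : k + 1 = j
        · rw [if_pos (Or.inr hB), if_neg hA, if_pos (by omega), if_neg (by omega), one_mul, zero_add]
        · rw [if_neg (by omega), if_neg hA, zero_mul, zero_add]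
          by_cases h : k = j - 1
          · rw [if_pos h, if_pos (by omega)]
          · rw [if_neg h]
    rw [Finset.sum_congr rfl e, Finset.sum_add_distrib, Finset.sum_ite_eq', Finset.sum_ite_eq',
      if_pos (show j - 1 ∈ Finset.range p by rw [Finset.mem_range]; omega)]
    congr 1
    by_cases h : j + 1 = p
    · rw [if_pos h, if_neg (by rw [Finset.mem_range]; omega)]
    · rw [if_neg h, if_pos (by rw [Finset.mem_range]; omega)]
  have h2 : ∑ k ∈ Finset.range p, (if j = 0 ∧ k = 0 then a else 0) * u k =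
      if j = 0 then a * u 0 else 0 := by
    by_cases h : j = 0
    · rw [if_pos h, Finset.sum_eq_single 0]
      · rw [if_pos ⟨h, rfl⟩]
      · intro k _ hk
        rw [if_neg (fun h' => hk h'.2), zero_mul]
      · intro h'
        exact absurd (Finset.mem_range.2 (by omega)) h'
    · rw [if_neg h]
      refine Finset.sum_eq_zero fun k _ => ?_
      rw [if_neg (fun h' => h h'.1), zero_mul]
  have h3 : ∑ k ∈ Finset.range p, (if j + 1 = p ∧ k + 1 = p then w else 0) * u k =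
      if j + 1 = p then w * u (p - 1) else 0 := by
    by_cases h : j + 1 = p
    · rw [if_pos h, Finset.sum_eq_single (p - 1)]
      · rw [if_pos ⟨h, by omega⟩]
      · intro k _ hk
        rw [if_neg (fun h' => hk (by omega)), zero_mul]
      · intro h'
        exact absurd (Finset.mem_range.2 (by omega)) h'
    · rw [if_neg h]
      refine Finset.sum_eq_zero fun k _ => ?_
      rw [if_neg (fun h' => h h'.1), zero_mul]
  rw [h1, h2, h3]
  by_cases h6 : j = 0 <;> by_cases h8 : j + 1 = p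
  · rw [if_pos h8, if_pos h6, if_pos h6, if_pos h8, if_pos h6, if_pos h8]; ring
  · rw [if_neg h8, if_pos h6, if_pos h6, if_neg h8, if_pos h6, if_neg h8]; ring
  · rw [if_pos h8, if_neg h6, if_neg h6, if_pos h8, if_neg h6, if_pos h8]; ring
  · rw [if_neg h8, if_neg h6, if_neg h6, if_neg h8, if_neg h6, if_neg h8]; ring

/-- The eigenvector equation. -/
theorem JM_QM {p : ℕ} (hp : 2 ≤ p) {H : Fin p → ℝ → ℂ} (hF : Fam p H) {φ : ℝ}
    (hφ : φ ∈ Set.Icc (-(Real.pi / 2)) 0) :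
    JM p 1 (Complex.exp (φ * Complex.I)) * QM p H φ = QM p H φ * diagonal (fun m => H m φ) := by
  ext j m
  rw [mul_diagonal]
  have h1 : (JM p 1 (Complex.exp (φ * Complex.I)) * QM p H φ) j m =
      (JM p 1 (Complex.exp (φ * Complex.I))).mulVec (fun k => PP (H m φ) k) j := rfl
  rw [h1, mulVec_JM]
  have hr := hF.root φ hφ m
  set z := Complex.exp (φ * Complex.I)
  set h := H m φ
  show _ = PP h j * h
  obtain ⟨j, hj⟩ := j
  simp only
  rcases Nat.eq_zero_or_pos j with h0 | h0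
  · subst h0
    rw [if_pos rfl, if_neg (by omega)]
    simp [PP]
  · rw [if_neg (by omega)]
    obtain ⟨i, rfl⟩ : ∃ i, j = i + 1 := ⟨j - 1, by omega⟩
    have e : PP h (i + 2) = h * PP h (i + 1) - PP h i := rfl
    simp only [Nat.add_sub_cancel]
    split_ifs with h2
    · have : p - 1 = i + 1 := by omega
      have h3 : p = i + 2 := by omega
      rw [← hr]
      conv_lhs => rw [h3, e]
      ring
    · rw [e]; ring

theorem rt_pow_eq (N n : ℕ) (hN : N ≠ 0) :
    rt N ^ (2 * n + 1) = Complex.exp ((ph N n : ℂ) * Complex.I) := by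
  have hN' : (N : ℂ) ≠ 0 := by exact_mod_cast hN
  have e : ((ph N n : ℝ) : ℂ) * Complex.I =
      ((2 * n + 1 : ℕ) : ℂ) * (Real.pi * Complex.I / N) - 2 * Real.pi * Complex.I := by
    rw [ph]
    push_cast
    field_simp
  rw [e, Complex.exp_sub, Complex.exp_nat_mul, Complex.exp_two_pi_mul_I, div_one, rt]

theorem rt_ne (N : ℕ) : rt N ≠ 0 := Complex.exp_ne_zero _

theorem cos_eq (N n : ℕ) (hN : N ≠ 0) :
    rt N ^ (2 * n + 1) + (rt N)⁻¹ ^ (2 * n + 1) = 2 * (Real.cos (ph N n) : ℂ) := by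
  rw [inv_pow, rt_pow_eq N n hN, ← Complex.exp_neg, Complex.ofReal_cos, Complex.cos]
  rw [neg_mul]
  ring

/-- The corner matrix. -/
def e00 (p : ℕ) : Matrix (Fin p) (Fin p) ℂ := fun i j =>
  if (i : ℕ) = 0 ∧ (j : ℕ) = 0 then 1 else 0

theorem JM_split (p : ℕ) (a w : ℂ) : JM p a w = JM p 1 w + (a - 1) • e00 p := by
  ext i j
  simp only [JM, e00, Matrix.add_apply, Matrix.smul_apply, smul_eq_mul]
  split_ifs <;> ring

theorem entry_mul_le {p : ℕ} (A B : Matrix (Fin p) (Fin p) ℂ) {a b : ℝ} (ha : 0 ≤ a)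
    (hA : ∀ i j, ‖A i j‖ ≤ a) (hB : ∀ i j, ‖B i j‖ ≤ b) (i j : Fin p) :
    ‖(A * B) i j‖ ≤ p * (a * b) := by
  rw [Matrix.mul_apply]
  calc ‖∑ k, A i k * B k j‖ ≤ ∑ k, ‖A i k * B k j‖ := norm_sum_le _ _
    _ ≤ ∑ _k : Fin p, a * b := by
        refine Finset.sum_le_sum fun k _ => ?_
        rw [norm_mul]
        exact mul_le_mul (hA i k) (hB k j) (norm_nonneg _) ha
    _ = p * (a * b) := by rw [Finset.sum_const, Finset.card_univ, Fintype.card_fin, nsmul_eq_mul]

theorem tendsto_rt : Filter.Tendsto (fun N : ℕ => 1 - (rt N)⁻¹) Filter.atTop (nhds 0) := by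
  have h1 : Filter.Tendsto (fun N : ℕ => Real.pi / (N : ℝ)) Filter.atTop (nhds 0) :=
    tendsto_const_div_atTop_nhds_zero_nat Real.pi
  have h2 : ContinuousAt (fun t : ℝ => 1 - (Complex.exp ((t : ℂ) * Complex.I))⁻¹) 0 := by
    refine ContinuousAt.sub continuousAt_const (ContinuousAt.inv₀ ?_ (Complex.exp_ne_zero _))
    fun_prop
  have h3 := h2.tendsto.comp h1
  simp only [Complex.ofReal_zero, zero_mul, Complex.exp_zero, inv_one, sub_self] at h3
  refine h3.congr fun N => ?_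
  simp only [Function.comp, rt]
  congr 3
  push_cast
  ring

/-- The identity of matrices. -/
theorem mat_id {p : ℕ} (Q Qi J0 : Matrix (Fin p) (Fin p) ℂ) (c x : ℂ) (h : Fin p → ℂ)
    (hJ : J0 * Q = Q * diagonal h) :
    c • (Qi * Q) - Qi * (J0 + (x - 1) • e00 p) * Q =
      diagonal (fun m => c - h m) + ((Qi * Q - 1) * diagonal (fun m => c - h m) +
        (1 - x) • (Qi * e00 p * Q)) := by
  have e : (diagonal (fun m => c - h m) : Matrix (Fin p) (Fin p) ℂ) = c • 1 - diagonal h := by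
    ext i j
    by_cases hij : i = j
    · subst hij; simp
    · simp [hij, Matrix.one_apply]
  rw [e, mul_add, add_mul, Matrix.mul_assoc Qi J0 Q, hJ]
  have e1 : (Qi * Q - 1) * (c • (1 : Matrix (Fin p) (Fin p) ℂ) - diagonal h) =
      c • (Qi * Q) - Qi * (Q * diagonal h) - (c • 1 - diagonal h) := by
    rw [Matrix.sub_mul, Matrix.one_mul, Matrix.mul_sub, Matrix.mul_smul, Matrix.mul_one,
      Matrix.mul_assoc]
  rw [e1, Matrix.mul_smul, Matrix.smul_mul, sub_smul, sub_smul, one_smul]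
  abel

theorem vec_id {p : ℕ} (Q Qi Qi0 J : Matrix (Fin p) (Fin p) ℂ) (c z t : ℂ) (D D' : Fin p → ℂ)
    (hQ : Q * Qi = 1) (hD : ∀ j, t * D' j = z * (c * D j - J.mulVec D j)) (m : Fin p) :
    t * (Qi0.mulVec D') m = z * ((c • (Qi0 * Q) - Qi0 * J * Q).mulVec (Qi.mulVec D)) m := by
  have h1 : t • D' = z • (c • D - J.mulVec D) := by
    ext j
    exact hD j
  have h2 : D = Q.mulVec (Qi.mulVec D) := by
    rw [Matrix.mulVec_mulVec, hQ, Matrix.one_mulVec]
  have h3 : t • Qi0.mulVec D' = z • ((c • (Qi0 * Q) - Qi0 * J * Q).mulVec (Qi.mulVec D)) := by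
    rw [← Matrix.mulVec_smul, h1, Matrix.mulVec_smul]
    congr 1
    rw [Matrix.mulVec_sub, Matrix.sub_mulVec, Matrix.smul_mulVec, Matrix.mulVec_smul]
    rw [← Matrix.mulVec_mulVec, ← h2, ← Matrix.mulVec_mulVec, ← h2, ← Matrix.mulVec_mulVec]
  exact congrFun h3 m

theorem frm (h1 : S_Drec) (h2 : S_inv) : S_frame := by
  intro p hp H hF ε hε
  obtain ⟨hdet, hQc, hIc, C0, hC0⟩ := h2 p hp H hF
  set I := Set.Icc (-(Real.pi / 2)) (0 : ℝ) with hI
  have hCH : ∃ CH : ℝ, ∀ φ ∈ I, ∀ m, ‖H m φ‖ ≤ CH := by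
    have : ∀ m, ∃ C : ℝ, ∀ φ ∈ I, ‖H m φ‖ ≤ C := fun m =>
      isCompact_Icc.exists_bound_of_continuousOn (hF.cont m)
    choose C hC using this
    refine ⟨∑ i, |C i|, fun φ hφ i => ?_⟩
    calc ‖H i φ‖ ≤ C i := hC i φ hφ
      _ ≤ |C i| := le_abs_self _
      _ ≤ _ := Finset.single_le_sum (f := fun i => |C i|)
          (fun _ _ => abs_nonneg _) (Finset.mem_univ i)
  obtain ⟨CH0, hCH0⟩ := hCH
  set C := |C0| with hCdef
  set CH := |CH0| with hCHdef
  have hC : 0 ≤ C := abs_nonneg _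
  have hCH : 0 ≤ CH := abs_nonneg _
  have hQ : ∀ φ ∈ I, ∀ i j, ‖QM p H φ i j‖ ≤ C := fun φ hφ i j =>
    (hC0 φ hφ i j).1.trans (le_abs_self _)
  have hQi : ∀ φ ∈ I, ∀ i j, ‖(QM p H φ)⁻¹ i j‖ ≤ C := fun φ hφ i j =>
    (hC0 φ hφ i j).2.trans (le_abs_self _)
  have hH : ∀ φ ∈ I, ∀ m, ‖H m φ‖ ≤ CH := fun φ hφ m => (hCH0 φ hφ m).trans (le_abs_self _)
  -- constants
  set K := p * C * (2 + CH) + 1 with hK
  have hKpos : 0 < K := by positivity
  set K2 := (p : ℝ) * (p * (C * 1) * C) + 1 with hK2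
  have hK2pos : 0 < K2 := by positivity
  set η := ε / (2 * K) with hη
  have hηpos : 0 < η := by positivity
  set η2 := ε / (2 * K2) with hη2
  have hη2pos : 0 < η2 := by positivity
  -- uniform continuity
  have hcont : ContinuousOn (fun φ (i j : Fin p) => QM p H φ i j) I := hQc
  have huc := isCompact_Icc.uniformContinuousOn_of_continuous hcont
  rw [Metric.uniformContinuousOn_iff] at huc
  obtain ⟨δ, hδ, hδ'⟩ := huc η hηpos
  have ev1 : ∀ᶠ N : ℕ in Filter.atTop, 2 * Real.pi / (N : ℝ) < δ :=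
    (tendsto_const_div_atTop_nhds_zero_nat (2 * Real.pi)).eventually_lt_const hδ
  have ev2 : ∀ᶠ N : ℕ in Filter.atTop, ‖1 - (rt N)⁻¹‖ < η2 := by
    have := tendsto_rt.norm
    rw [norm_zero] at this
    exact this.eventually_lt_const hη2pos
  obtain ⟨N0, hN0⟩ := Filter.eventually_atTop.1 (ev1.and ev2)
  refine ⟨N0, fun N hN n hn1 hnN hphn => ?_⟩
  obtain ⟨e1, e2⟩ := hN0 N hN
  have hNpos : (0 : ℝ) < N := by exact_mod_cast (show 0 < N by omega)
  have hN0' : N ≠ 0 := by omega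
  have hdiff : ph N n - ph N (n - 1) = 2 * Real.pi / N := by
    rw [ph, ph, Nat.cast_sub hn1]
    push_cast
    field_simp
    ring
  have hpos2 : 0 < 2 * Real.pi / (N : ℝ) := by have := Real.pi_pos; positivity
  have hle : ph N n ≤ 0 := by
    rw [ph]
    have : (n : ℝ) + 1 ≤ N := by exact_mod_cast hnN
    have h3 : 2 * Real.pi * ((n : ℝ) + 1 / 2) / N ≤ 2 * Real.pi := by
      rw [div_le_iff₀ hNpos]
      have := Real.pi_pos
      nlinarith
    linarith
  have hm1 : ph N n ∈ I := ⟨by linarith, hle⟩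
  have hm0 : ph N (n - 1) ∈ I := ⟨hphn, by linarith⟩
  set Q := QM p H (ph N n) with hQdef
  set Q' := QM p H (ph N (n - 1)) with hQ'def
  set c : ℂ := 2 * (Real.cos (ph N n) : ℂ) with hc
  set x := rt N with hx
  set z := x ^ (2 * n + 1) with hz
  have hzexp : z = Complex.exp ((ph N n : ℂ) * Complex.I) := rt_pow_eq N n hN0'
  have hJ : JM p 1 z * Q = Q * diagonal (fun m => H m (ph N n)) := by
    rw [hzexp]; exact JM_QM hp hF hm1
  have hQQ : Q * Q⁻¹ = 1 := Matrix.mul_nonsing_inv _ (hdet _ hm1)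
  have hQQ' : Q'⁻¹ * Q' = 1 := Matrix.nonsing_inv_mul _ (hdet _ hm0)
  have hD := h1 x (rt_ne N) p n (by omega) hn1
  have hD' : ∀ j, (1 - x ^ (2 * n)) * DV x p (n - 1) j =
      z * (c * DV x p n j - (JM p x⁻¹ z).mulVec (DV x p n) j) := by
    intro j
    rw [hD j, hz, cos_eq N n hN0']
  refine ⟨(Q'⁻¹ * Q - 1) * diagonal (fun m => c - H m (ph N n)) +
        (1 - x⁻¹) • (Q'⁻¹ * e00 p * Q), ?_, ?_⟩
  · intro i j
    have hsub : Q'⁻¹ * Q - 1 = Q'⁻¹ * (Q - Q') := by rw [mul_sub, hQQ']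
    have hclose : ∀ k l, ‖(Q - Q') k l‖ ≤ η := by
      intro k l
      have h3 := hδ' (ph N n) hm1 (ph N (n - 1)) hm0 (by
        rw [Real.dist_eq, hdiff, abs_of_pos hpos2]; exact e1)
      have h4 := (dist_pi_lt_iff hηpos).1 h3 k
      have h5 := (dist_pi_lt_iff hηpos).1 h4 l
      rw [dist_eq_norm] at h5
      exact h5.le
    have b1 : ‖(Q'⁻¹ * Q - 1) i j‖ ≤ p * (C * η) := by
      rw [hsub]
      exact entry_mul_le _ _ hC (fun k l => hQi _ hm0 k l) hclose i j
    have b2 : ‖c - H j (ph N n)‖ ≤ 2 + CH := by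
      refine (norm_sub_le _ _).trans (add_le_add ?_ (hH _ hm1 j))
      rw [hc, norm_mul, Complex.norm_real, Real.norm_eq_abs]
      have := Real.abs_cos_le_one (ph N n)
      have h2' : ‖(2 : ℂ)‖ = 2 := by simp
      rw [h2']; linarith
    have b3 : ‖(Q'⁻¹ * e00 p * Q) i j‖ ≤ p * (p * (C * 1) * C) := by
      refine entry_mul_le _ _ (by positivity) (fun k l => ?_) (fun k l => hQ _ hm1 k l) i j
      refine entry_mul_le _ _ hC (fun k l => hQi _ hm0 k l) (fun k l => ?_) k l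
      rw [e00]
      split_ifs <;> simp
    rw [Matrix.add_apply, Matrix.mul_diagonal, Matrix.smul_apply, smul_eq_mul]
    calc ‖(Q'⁻¹ * Q - 1) i j * (c - H j (ph N n)) + (1 - x⁻¹) * (Q'⁻¹ * e00 p * Q) i j‖
        ≤ ‖(Q'⁻¹ * Q - 1) i j * (c - H j (ph N n))‖ + ‖(1 - x⁻¹) * (Q'⁻¹ * e00 p * Q) i j‖ :=
          norm_add_le _ _
      _ ≤ p * (C * η) * (2 + CH) + η2 * (p * (p * (C * 1) * C)) := by
          rw [norm_mul, norm_mul]
          refine add_le_add (mul_le_mul b1 b2 (norm_nonneg _) (by positivity))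
            (mul_le_mul e2.le b3 (norm_nonneg _) hη2pos.le)
      _ ≤ η * K + η2 * K2 := by
          rw [hK, hK2]
          nlinarith
      _ = ε := by
          rw [hη, hη2]
          field_simp
          ring
  · intro m
    have h3 := vec_id Q Q⁻¹ Q'⁻¹ (JM p x⁻¹ z) c z (1 - x ^ (2 * n)) (DV x p n)
      (DV x p (n - 1)) hQQ hD' m
    rw [JM_split p x⁻¹ z, mat_id Q Q'⁻¹ (JM p 1 z) c x⁻¹ _ hJ, Matrix.add_mulVec] at h3
    have e : (diagonal (fun m => c - H m (ph N n))).mulVec (Q⁻¹.mulVec (DV x p n)) m =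
        (c - H m (ph N n)) * YV p H N n m := by
      rw [Matrix.mulVec_diagonal]; rfl
    rw [Pi.add_apply, e] at h3
    exact h3

end Pool.Agent.Q177.VC.Frm
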