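import Mathlib
import Pool.Agent.Q167.VC.Stm

set_option autoImplicit false

/-!
# INV: the frame is invertible with uniform bounds
-/

namespace Pool.Agent.Q177.VC.Inv

open Pool.Agent.Q167.VC Matrix Polynomial

/-- The polynomials. -/
noncomputable def PPp : ℕ → ℂ[X]
  | 0 => 1
  | 1 => X - C 1
  | j + 2 => X * PPp (j + 1) - PPp j

theorem PPp_deg : ∀ j : ℕ, (PPp j).Monic ∧ (PPp j).natDegree = j ∧ (PPp (j + 1)).Monic ∧
    (PPp (j + 1)).natDegree = j + 1 := by
  intro j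
  induction j with
  | zero => exact ⟨monic_one, natDegree_one, monic_X_sub_C 1, natDegree_X_sub_C 1⟩
  | succ j ih =>
    obtain ⟨h1, h2, h3, h4⟩ := ih
    refine ⟨h3, h4, ?_⟩
    have hm : (X * PPp (j + 1)).Monic := monic_X.mul h3
    have hd : (X * PPp (j + 1)).natDegree = j + 2 := by
      rw [monic_X.natDegree_mul h3, natDegree_X, h4]; ring
    have hlt : (PPp j).degree < (X * PPp (j + 1)).degree := by
      apply degree_lt_degree
      rw [hd, h2]; omega
    have e : PPp (j + 1 + 1) = X * PPp (j + 1) - PPp j := rfl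
    constructor
    · rw [e]; exact hm.sub_of_left hlt
    · rw [e, natDegree_sub_eq_left_of_natDegree_lt (by rw [hd, h2]; omega), hd]

theorem PPp_eval (h : ℂ) : ∀ j : ℕ, (PPp j).eval h = PP h j ∧ (PPp (j + 1)).eval h = PP h (j + 1) := by
  intro j
  induction j with
  | zero => exact ⟨by simp [PPp, PP], by simp [PPp, PP]⟩
  | succ j ih =>
    refine ⟨ih.2, ?_⟩
    show (X * PPp (j + 1) - PPp j).eval h = h * PP h (j + 1) - PP h j
    rw [eval_sub, eval_mul, eval_X, ih.1, ih.2]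

theorem cont_PP (j : ℕ) : Continuous fun h : ℂ => PP h j := by
  have : (fun h : ℂ => PP h j) = fun h => (PPp j).eval h := by
    ext h; exact ((PPp_eval h j).1).symm
  rw [this]
  exact (PPp j).continuous

/-- Distinct eigenvalues. -/
theorem inj {p : ℕ} (hp : 1 ≤ p) {H : Fin p → ℝ → ℂ} (hF : Fam p H) {φ : ℝ}
    (hφ : φ ∈ Set.Icc (-(Real.pi / 2)) 0) : Function.Injective fun m => H m φ := by
  intro m m' h
  have h1 := hF.strip φ hφ m
  have h2 := hF.strip φ hφ m'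
  have h3 : H m φ = H m' φ := h
  rw [h3] at h1
  have hpp : (0 : ℝ) < p := by exact_mod_cast hp
  have hpi := Real.pi_pos
  rw [abs_lt] at h1 h2
  have e : Real.pi / (2 * p) = (Real.pi / p) / 2 := by field_simp
  rw [e] at h1 h2
  have hq : 0 < Real.pi / p := by positivity
  have e1 : ((m : ℝ) + 1) * Real.pi / p = (m + 1) * (Real.pi / p) := by ring
  have e2 : ((m' : ℝ) + 1) * Real.pi / p = (m' + 1) * (Real.pi / p) := by ring
  rw [e1] at h1
  rw [e2] at h2
  have h4 : ((m : ℝ) - m') * (Real.pi / p) < 1 * (Real.pi / p) := by nlinarith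
  have h5 : ((m' : ℝ) - m) * (Real.pi / p) < 1 * (Real.pi / p) := by nlinarith
  have h6 := lt_of_mul_lt_mul_right h4 hq.le
  have h7 := lt_of_mul_lt_mul_right h5 hq.le
  have h8 : ((m : ℕ) : ℝ) < ((m' : ℕ) : ℝ) + 1 := by linarith
  have h9 : ((m' : ℕ) : ℝ) < ((m : ℕ) : ℝ) + 1 := by linarith
  have h10 : (m : ℕ) < (m' : ℕ) + 1 := by exact_mod_cast h8
  have h11 : (m' : ℕ) < (m : ℕ) + 1 := by exact_mod_cast h9
  exact Fin.ext (by omega)

theorem det_ne {p : ℕ} (hp : 1 ≤ p) {H : Fin p → ℝ → ℂ} (hF : Fam p H) {φ : ℝ}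
    (hφ : φ ∈ Set.Icc (-(Real.pi / 2)) 0) : (QM p H φ).det ≠ 0 := by
  have h1 := Matrix.det_eval_matrixOfPolynomials_eq_det_vandermonde (fun m : Fin p => H m φ)
    (fun j => PPp j) (fun j => (PPp_deg j).2.1) (fun j => (PPp_deg j).1)
  have h2 : (Matrix.of fun i j : Fin p => (PPp j).eval (H i φ)) = (QM p H φ)ᵀ := by
    ext i j
    exact (PPp_eval (H i φ) j).1
  rw [h2, det_transpose] at h1
  rw [← h1]
  exact det_vandermonde_ne_zero_iff.2 (inj hp hF hφ)

theorem inv : S_inv := by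
  intro p hp H hF
  have hp1 : 1 ≤ p := by omega
  have hQ : ContinuousOn (QM p H) (Set.Icc (-(Real.pi / 2)) 0) := by
    refine continuousOn_pi.2 fun i => continuousOn_pi.2 fun j => ?_
    exact (cont_PP i).comp_continuousOn (hF.cont j)
  have hdet : ContinuousOn (fun φ => (QM p H φ).det) (Set.Icc (-(Real.pi / 2)) 0) :=
    (continuous_id.matrix_det).comp_continuousOn hQ
  have hadj : ContinuousOn (fun φ => (QM p H φ).adjugate) (Set.Icc (-(Real.pi / 2)) 0) :=
    (continuous_id.matrix_adjugate).comp_continuousOn hQ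
  have hI : ContinuousOn (fun φ => (QM p H φ)⁻¹) (Set.Icc (-(Real.pi / 2)) 0) := by
    have : (fun φ => (QM p H φ)⁻¹) = fun φ => ((QM p H φ).det)⁻¹ • (QM p H φ).adjugate := by
      ext φ : 1
      rw [Matrix.inv_def, Ring.inverse_eq_inv']
    rw [this]
    exact (hdet.inv₀ fun φ hφ => det_ne hp1 hF hφ).smul hadj
  refine ⟨fun φ hφ => isUnit_iff_ne_zero.2 (det_ne hp1 hF hφ), hQ, hI, ?_⟩
  have hb : ∀ (F : ℝ → Matrix (Fin p) (Fin p) ℂ),
      ContinuousOn F (Set.Icc (-(Real.pi / 2)) 0) →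
      ∃ C : ℝ, ∀ φ ∈ Set.Icc (-(Real.pi / 2)) 0, ∀ i j, ‖F φ i j‖ ≤ C := by
    intro F hF'
    have : ∀ i j, ∃ C : ℝ, ∀ φ ∈ Set.Icc (-(Real.pi / 2)) 0, ‖F φ i j‖ ≤ C := by
      intro i j
      have hc : ContinuousOn (fun φ => F φ i j) (Set.Icc (-(Real.pi / 2)) 0) :=
        continuousOn_pi.1 (continuousOn_pi.1 hF' i) j
      exact isCompact_Icc.exists_bound_of_continuousOn hc
    choose C hC using this
    refine ⟨∑ i, ∑ j, |C i j|, fun φ hφ i j => ?_⟩
    calc ‖F φ i j‖ ≤ C i j := hC i j φ hφ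
      _ ≤ |C i j| := le_abs_self _
      _ ≤ ∑ j, |C i j| := Finset.single_le_sum (f := fun j => |C i j|)
          (fun _ _ => abs_nonneg _) (Finset.mem_univ j)
      _ ≤ _ := Finset.single_le_sum (f := fun i => ∑ j, |C i j|)
          (fun _ _ => Finset.sum_nonneg fun _ _ => abs_nonneg _) (Finset.mem_univ i)
  obtain ⟨C1, h1⟩ := hb _ hQ
  obtain ⟨C2, h2⟩ := hb _ hI
  exact ⟨max C1 C2, fun φ hφ i j => ⟨(h1 φ hφ i j).trans (le_max_left _ _),
    (h2 φ hφ i j).trans (le_max_right _ _)⟩⟩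

end Pool.Agent.Q177.VC.Inv
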