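import Mathlib
import Pool.Agent.Q167.VC.Stm
import Pool.Agent.Q177.VC.Inv
import Pool.Agent.Q177.VC.Frm

set_option autoImplicit false

/-!
# STA: the starting vector in the frame
-/

namespace Pool.Agent.Q177.VC.Sta

open Pool.Agent.Q167.VC Matrix

theorem sin_rec (a t : ℂ) : Complex.sin (a + t) = 2 * Complex.cos t * Complex.sin a -
    Complex.sin (a - t) := by
  rw [Complex.sin_add, Complex.sin_sub]; ring

theorem PP_cos (t : ℂ) : ∀ j : ℕ,
    PP (-2 * Complex.cos t) j * Complex.sin (t / 2) = (-1) ^ j * Complex.sin ((j + 1 / 2) * t) ∧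
    PP (-2 * Complex.cos t) (j + 1) * Complex.sin (t / 2) =
      (-1) ^ (j + 1) * Complex.sin ((j + 1 + 1 / 2) * t) := by
  intro j
  induction j with
  | zero =>
    constructor
    · simp only [PP, one_mul, pow_zero, Nat.cast_zero, zero_add]
      congr 1; ring
    · simp only [PP, zero_add, pow_one, Nat.cast_zero]
      have e1 : (1 + 1 / 2) * t = t / 2 + t := by ring
      have e2 : t / 2 - t = -(t / 2) := by ring
      rw [e1, sin_rec, e2, Complex.sin_neg]
      ring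
  | succ j ih =>
    refine ⟨?_, ?_⟩
    · rw [ih.2]; push_cast; ring_nf
    · have e : PP (-2 * Complex.cos t) (j + 1 + 1) =
        (-2 * Complex.cos t) * PP (-2 * Complex.cos t) (j + 1) - PP (-2 * Complex.cos t) j := rfl
      have e1 : (((j + 1 : ℕ) : ℂ) + 1 + 1 / 2) * t = (j + 1 + 1 / 2) * t + t := by
        push_cast; ring
      have e2 : ((j : ℂ) + 1 + 1 / 2) * t - t = (j + 1 / 2) * t := by ring
      rw [e, e1, sin_rec, e2, sub_mul, mul_assoc (-2 * Complex.cos t), ih.1, ih.2]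
      ring

theorem CD (h h' : ℂ) (n : ℕ) :
    (h - h') * ∑ j ∈ Finset.range (n + 1), PP h j * PP h' j =
      PP h (n + 1) * PP h' n - PP h n * PP h' (n + 1) := by
  induction n with
  | zero => simp [PP]
  | succ n ih =>
    rw [Finset.sum_range_succ, mul_add, ih]
    have e : ∀ x : ℂ, PP x (n + 1 + 1) = x * PP x (n + 1) - PP x n := fun _ => rfl
    rw [e h, e h']
    ring

/-- The row of the inverse matrix. -/
theorem row {p : ℕ} (hp : 2 ≤ p) {H : Fin p → ℝ → ℂ} (hF : Fam p H)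
    (hdet : IsUnit (QM p H 0).det) (m₀ : Fin p)
    (hS : ∑ j ∈ Finset.range p, PP (H m₀ 0) j * PP (H m₀ 0) j ≠ 0) (j : Fin p) :
    (QM p H 0)⁻¹ m₀ j = PP (H m₀ 0) j /
      ∑ j ∈ Finset.range p, PP (H m₀ 0) j * PP (H m₀ 0) j := by
  set S := ∑ j ∈ Finset.range p, PP (H m₀ 0) j * PP (H m₀ 0) j with hSdef
  have hI : (0 : ℝ) ∈ Set.Icc (-(Real.pi / 2)) 0 :=
    ⟨by have := Real.pi_pos; linarith, le_refl _⟩
  set r : Fin p → ℂ := fun j => PP (H m₀ 0) j / S with hr
  have h1 : r ᵥ* QM p H 0 = Pi.single m₀ 1 := by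
    ext m
    have e1 : (r ᵥ* QM p H 0) m = (∑ j ∈ Finset.range p, PP (H m₀ 0) j * PP (H m 0) j) / S := by
      rw [vecMul, dotProduct, Finset.sum_div,
        ← Fin.sum_univ_eq_sum_range (fun j => PP (H m₀ 0) j * PP (H m 0) j / S) p]
      refine Finset.sum_congr rfl fun k _ => ?_
      simp only [hr, QM]
      ring
    rw [e1]
    by_cases hm : m = m₀
    · subst hm
      rw [Pi.single_eq_same, ← hSdef, div_self hS]
    · rw [Pi.single_eq_of_ne hm]
      obtain ⟨n, hn⟩ : ∃ n, p = n + 1 := ⟨p - 1, by omega⟩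
      have h2 := CD (H m₀ 0) (H m 0) n
      have r1 := hF.root 0 hI m₀
      have r2 := hF.root 0 hI m
      rw [Complex.ofReal_zero, zero_mul, Complex.exp_zero, one_mul] at r1 r2
      have hp1 : p - 1 = n := by omega
      rw [hp1] at r1 r2
      rw [← hn] at h2
      rw [r1, r2] at h2
      have h3 : H m₀ 0 - H m 0 ≠ 0 := by
        intro h
        exact hm ((Inv.inj (by omega) hF hI) (sub_eq_zero.1 h).symm)
      have h4 : ∑ j ∈ Finset.range p, PP (H m₀ 0) j * PP (H m 0) j = 0 := by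
        have : (H m₀ 0 - H m 0) * ∑ j ∈ Finset.range p, PP (H m₀ 0) j * PP (H m 0) j = 0 := by
          rw [h2]; ring
        exact (mul_eq_zero.1 this).resolve_left h3
      rw [h4, zero_div]
  have h2 : r = (Pi.single m₀ (1 : ℂ)) ᵥ* (QM p H 0)⁻¹ := by
    rw [← h1, vecMul_vecMul, Matrix.mul_nonsing_inv _ hdet, vecMul_one]
  have h3 := congrFun h2 j
  rw [Matrix.single_one_vecMul] at h3
  exact h3.symm

/-- The eigenvalue at the end. -/
theorem h0_eq {p : ℕ} (hp : 2 ≤ p) {H : Fin p → ℝ → ℂ} (hF : Fam p H) (m₀ : Fin p)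
    (hm : (m₀ : ℕ) = 0) : H m₀ 0 = -2 * Complex.cos ((Real.pi / p : ℝ) : ℂ) := by
  have hI : (0 : ℝ) ∈ Set.Icc (-(Real.pi / 2)) 0 :=
    ⟨by have := Real.pi_pos; linarith, le_refl _⟩
  have hpi := Real.pi_pos
  have hp0 : (0 : ℝ) < p := by exact_mod_cast (show 0 < p by omega)
  have hp2 : (2 : ℝ) ≤ p := by exact_mod_cast hp
  have hr := hF.root 0 hI m₀
  have hs := hF.strip 0 hI m₀
  rw [Complex.ofReal_zero, zero_mul, Complex.exp_zero, one_mul] at hr
  rw [hm, Nat.cast_zero, zero_add, one_mul] at hs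
  set h := H m₀ 0 with hh
  obtain ⟨t, ht⟩ := Complex.cos_surjective (-h / 2)
  have hht : h = -2 * Complex.cos t := by rw [ht]; ring
  have hqp : 0 < Real.pi / (p : ℝ) := by positivity
  have e2p : Real.pi / (2 * (p : ℝ)) = (Real.pi / p) / 2 := by field_simp
  rw [e2p] at hs
  -- special values
  have hne2 : h ≠ 2 := by
    intro h2
    rw [h2, al] at hs
    have : (‖(2 : ℂ) - 2‖ - ‖(2 : ℂ) + 2‖) / 4 = -1 := by norm_num
    rw [this, Real.arccos_neg_one, abs_lt] at hs
    have h3 : Real.pi / p ≤ Real.pi / 2 := by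
      apply div_le_div_of_nonneg_left hpi.le (by norm_num) hp2
    linarith [hs.2]
  have hnem2 : h ≠ -2 := by
    intro h2
    rw [h2, al] at hs
    have : (‖(-2 : ℂ) - 2‖ - ‖(-2 : ℂ) + 2‖) / 4 = 1 := by norm_num
    rw [this, Real.arccos_one, abs_lt] at hs
    linarith [hs.1]
  obtain ⟨n, hn⟩ : ∃ n, p = n + 1 := ⟨p - 1, by omega⟩
  have h1 := PP_cos t n
  rw [← hht, ← hn] at h1
  have hp1 : p - 1 = n := by omega
  rw [hp1] at hr
  rw [hr, h1.1] at h1
  have h2 : Complex.sin (((n : ℂ) + 1 + 1 / 2) * t) + Complex.sin (((n : ℂ) + 1 / 2) * t) = 0 := by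
    have h3 := h1.2
    rw [hn, pow_succ] at h3
    have h4 : ((-1 : ℂ) ^ n) ≠ 0 := pow_ne_zero _ (by norm_num)
    have h5 : (-1 : ℂ) ^ n * (Complex.sin (((n : ℂ) + 1 + 1 / 2) * t) +
        Complex.sin (((n : ℂ) + 1 / 2) * t)) = 0 := by
      rw [mul_add]
      rw [h3]; ring
    exact (mul_eq_zero.1 h5).resolve_left h4
  have h3 : 2 * Complex.sin (((n : ℂ) + 1) * t) * Complex.cos (t / 2) = 0 := by
    rw [← h2]
    have e1 : ((n : ℂ) + 1 + 1 / 2) * t = (n + 1) * t + t / 2 := by ring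
    have e2 : ((n : ℂ) + 1 / 2) * t = (n + 1) * t - t / 2 := by ring
    rw [e1, e2, Complex.sin_add, Complex.sin_sub]
    ring
  have hcos : Complex.cos (t / 2) ≠ 0 := by
    intro h4
    have : Complex.cos t = 2 * Complex.cos (t / 2) ^ 2 - 1 := by
      rw [← Complex.cos_two_mul]; congr 1; ring
    rw [h4] at this
    apply hne2
    rw [hht, this]; norm_num
  have hsin : Complex.sin (((n : ℂ) + 1) * t) = 0 := by
    have := (mul_eq_zero.1 h3).resolve_right hcos
    exact (mul_eq_zero.1 this).resolve_left two_ne_zero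
  obtain ⟨k, hk⟩ := Complex.sin_eq_zero_iff.1 hsin
  have hn1 : ((n : ℂ) + 1) = (p : ℂ) := by rw [hn]; push_cast; ring
  have hpc : (p : ℂ) ≠ 0 := by exact_mod_cast (show p ≠ 0 by omega)
  have htk : t = ((k * Real.pi / p : ℝ) : ℂ) := by
    rw [hn1] at hk
    push_cast
    field_simp
    rw [mul_comm t, hk]
  set θ : ℝ := k * Real.pi / p with hθ
  have hcosr : Complex.cos t = ((Real.cos θ : ℝ) : ℂ) := by rw [htk, Complex.ofReal_cos]
  have hal : al h = Real.arccos (Real.cos θ) := by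
    rw [al, hht, hcosr]
    have c1 := Real.neg_one_le_cos θ
    have c2 := Real.cos_le_one θ
    have e1 : (-2 * ((Real.cos θ : ℝ) : ℂ) - 2) = ((-2 * Real.cos θ - 2 : ℝ) : ℂ) := by
      push_cast; ring
    have e2 : (-2 * ((Real.cos θ : ℝ) : ℂ) + 2) = ((-2 * Real.cos θ + 2 : ℝ) : ℂ) := by
      push_cast; ring
    rw [e1, e2, Complex.norm_real, Complex.norm_real, Real.norm_eq_abs, Real.norm_eq_abs,
      abs_of_nonpos (by linarith), abs_of_nonneg (by linarith)]
    congr 1; ring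
  rw [hal] at hs
  set a := Real.arccos (Real.cos θ) with ha
  have hcosa : Real.cos a = Real.cos θ :=
    Real.cos_arccos (Real.neg_one_le_cos θ) (Real.cos_le_one θ)
  have hal' : ∃ l : ℤ, a = l * (Real.pi / p) := by
    obtain ⟨j, hj⟩ := Real.cos_eq_cos_iff.1 hcosa
    rcases hj with hj | hj
    · refine ⟨k - 2 * j * p, ?_⟩
      have : a = θ - 2 * j * Real.pi := by linarith
      rw [this, hθ]; push_cast; field_simp
    · refine ⟨2 * j * p - k, ?_⟩
      have : a = 2 * j * Real.pi - θ := by linarith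
      rw [this, hθ]; push_cast; field_simp
  obtain ⟨l, hl⟩ := hal'
  rw [hl] at hs
  have hl1 : l = 1 := by
    rw [abs_lt] at hs
    have h5 : ((l : ℝ) - 1) * (Real.pi / p) < 1 * (Real.pi / p) := by linarith [hs.2]
    have h6 : (1 - (l : ℝ)) * (Real.pi / p) < 1 * (Real.pi / p) := by linarith [hs.1]
    have h7 := lt_of_mul_lt_mul_right h5 hqp.le
    have h8 := lt_of_mul_lt_mul_right h6 hqp.le
    have h9 : (l : ℝ) < 2 := by linarith
    have h10 : (0 : ℝ) < l := by linarith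
    have h11 : l < 2 := by exact_mod_cast h9
    have h12 : 0 < l := by exact_mod_cast h10
    omega
  rw [hht, hcosr, ← hcosa, hl, hl1, Int.cast_one, one_mul, Complex.ofReal_cos]

theorem sum_abel (P B : ℕ → ℂ) (n : ℕ) :
    ∑ j ∈ Finset.range (n + 1), P j * (B (j + 1) - B j) =
      P n * B (n + 1) - P 0 * B 0 + ∑ j ∈ Finset.range n, (P j - P (j + 1)) * B (j + 1) := by
  induction n with
  | zero => simp [mul_sub]
  | succ n ih => rw [Finset.sum_range_succ, ih, Finset.sum_range_succ _ n]; ring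

/-- The real values. -/
noncomputable def PR (p j : ℕ) : ℝ :=
  (-1) ^ j * Real.sin ((j + 1 / 2) * (Real.pi / p)) / Real.sin (Real.pi / p / 2)

theorem sin_pos {p : ℕ} (hp : 2 ≤ p) : 0 < Real.sin (Real.pi / p / 2) := by
  have hp2 : (2 : ℝ) ≤ p := by exact_mod_cast hp
  have hpi := Real.pi_pos
  apply Real.sin_pos_of_pos_of_lt_pi
  · positivity
  · rw [div_div, div_lt_iff₀ (by positivity)]
    nlinarith

theorem cos_pos {p : ℕ} (hp : 2 ≤ p) : 0 < Real.cos (Real.pi / p / 2) := by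
  have hp2 : (2 : ℝ) ≤ p := by exact_mod_cast hp
  have hpi := Real.pi_pos
  apply Real.cos_pos_of_mem_Ioo
  constructor
  · have : 0 < Real.pi / p / 2 := by positivity
    linarith
  · rw [div_div, div_lt_div_iff₀ (by positivity) (by norm_num)]
    nlinarith

theorem PP_PR {p : ℕ} (hp : 2 ≤ p) (j : ℕ) :
    PP (-2 * Complex.cos ((Real.pi / p : ℝ) : ℂ)) j = (PR p j : ℂ) := by
  have h1 := (PP_cos ((Real.pi / p : ℝ) : ℂ) j).1
  have h2 : Complex.sin (((Real.pi / p : ℝ) : ℂ) / 2) = (Real.sin (Real.pi / p / 2) : ℂ) := by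
    rw [Complex.ofReal_sin]; congr 1; push_cast; ring
  have h3 : Complex.sin (((j : ℂ) + 1 / 2) * ((Real.pi / p : ℝ) : ℂ)) =
      (Real.sin ((j + 1 / 2) * (Real.pi / p)) : ℂ) := by
    rw [Complex.ofReal_sin]; congr 1; push_cast; ring
  have hs : ((Real.sin (Real.pi / p / 2) : ℝ) : ℂ) ≠ 0 := by
    exact_mod_cast (sin_pos hp).ne'
  rw [h2, h3] at h1
  have h4 : (PR p j : ℂ) * ((Real.sin (Real.pi / p / 2) : ℝ) : ℂ) =
      (-1) ^ j * (Real.sin ((j + 1 / 2) * (Real.pi / p)) : ℂ) := by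
    rw [← Complex.ofReal_mul, PR, div_mul_cancel₀ _ (sin_pos hp).ne', Complex.ofReal_mul]
    simp
  exact mul_right_cancel₀ hs (h1.trans h4.symm)

theorem PR_zero {p : ℕ} (hp : 2 ≤ p) : PR p 0 = 1 := by
  rw [PR, pow_zero, one_mul, Nat.cast_zero, zero_add]
  have e : (1 / 2 : ℝ) * (Real.pi / p) = Real.pi / p / 2 := by ring
  rw [e, div_self (sin_pos hp).ne']

/-- The factor. -/
noncomputable def kap (p : ℕ) : ℝ := 2 * Real.cos (Real.pi / p / 2) / Real.sin (Real.pi / p / 2)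

theorem PR_diff {p : ℕ} (j : ℕ) :
    PR p j - PR p (j + 1) = - (kap p * ((-1) ^ (j + 1) * Real.sin ((j + 1 : ℕ) * Real.pi / p))) := by
  rw [PR, PR, kap]
  set θ := Real.pi / p with hθ
  have e1 : ((j : ℝ) + 1 / 2) * θ = (j + 1) * θ - θ / 2 := by ring
  have e2 : (((j + 1 : ℕ) : ℝ) + 1 / 2) * θ = (j + 1) * θ + θ / 2 := by push_cast; ring
  have e3 : ((j + 1 : ℕ) : ℝ) * Real.pi / p = (j + 1) * θ := by push_cast; rw [hθ]; ring
  rw [e1, e2, e3, Real.sin_sub, Real.sin_add, pow_succ]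
  ring

theorem main_sum {p : ℕ} (hp : 2 ≤ p) (B : ℕ → ℂ) (hB : B 0 = 0) :
    ∑ j ∈ Finset.range p, (PR p j : ℂ) * (B (j + 1) - B j) =
      (PR p (p - 1) : ℂ) * B p - (kap p : ℂ) *
        ∑ j ∈ Finset.range p, (-1) ^ j * (Real.sin (j * Real.pi / p) : ℂ) * B j := by
  obtain ⟨n, rfl⟩ : ∃ n, p = n + 1 := ⟨p - 1, by omega⟩
  rw [sum_abel (fun j => (PR (n + 1) j : ℂ)) B n, Finset.sum_range_succ', hB]
  have e0 : (-1 : ℂ) ^ 0 * (Real.sin (((0 : ℕ) : ℝ) * Real.pi / ((n + 1 : ℕ) : ℝ)) : ℂ) * 0 = 0 := by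
    simp
  rw [e0, add_zero, mul_zero, sub_zero, Nat.add_sub_cancel, Finset.mul_sum, sub_eq_add_neg,
    ← Finset.sum_neg_distrib]
  congr 1
  refine Finset.sum_congr rfl fun j _ => ?_
  have h : ((PR (n + 1) j - PR (n + 1) (j + 1) : ℝ) : ℂ) = _ :=
    congrArg (fun x : ℝ => (x : ℂ)) (PR_diff (p := n + 1) j)
  rw [Complex.ofReal_sub] at h
  rw [h]
  push_cast
  ring

theorem sta (h1 : S_inv) (h2 : S_size) : S_start := by
  intro p hp H hF
  obtain ⟨hdet, hQc, hIc, C0, hC0⟩ := h1 p hp H hF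
  obtain ⟨c, C1, hc, N1, hN1⟩ := h2 p hp
  set I := Set.Icc (-(Real.pi / 2)) (0 : ℝ) with hI
  have hpi := Real.pi_pos
  have h0I : (0 : ℝ) ∈ I := ⟨by linarith, le_refl _⟩
  set K := |C0| with hK
  set C := |C1| with hC
  have hKn : 0 ≤ K := abs_nonneg _
  have hCn : 0 ≤ C := abs_nonneg _
  have hκ : 0 < kap p := by
    rw [kap]; exact div_pos (mul_pos two_pos (cos_pos hp)) (sin_pos hp)
  set S := ∑ j ∈ Finset.range p, PR p j ^ 2 with hS
  have hSpos : 0 < S := by
    have : PR p 0 ^ 2 ≤ S := Finset.single_le_sum (f := fun j => PR p j ^ 2)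
      (fun _ _ => sq_nonneg _) (Finset.mem_range.2 (by omega))
    rw [PR_zero hp] at this
    linarith
  set M := ∑ j ∈ Finset.range p, |PR p j| with hM
  have hMn : 0 ≤ M := Finset.sum_nonneg fun _ _ => abs_nonneg _
  set κ := kap p with hκdef
  set η := κ * c / (8 * (S * (p * (2 * C)) + 1)) with hη
  have hηpos : 0 < η := by positivity
  have hcont : ContinuousOn (fun φ (i j : Fin p) => (QM p H φ)⁻¹ i j) I := hIc
  have huc := isCompact_Icc.uniformContinuousOn_of_continuous hcont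
  rw [Metric.uniformContinuousOn_iff] at huc
  obtain ⟨δ, hδ, hδ'⟩ := huc η hηpos
  have ev1 : ∀ᶠ N : ℕ in Filter.atTop, Real.pi / (N : ℝ) < δ :=
    (tendsto_const_div_atTop_nhds_zero_nat Real.pi).eventually_lt_const hδ
  have ev2 : ∀ᶠ N : ℕ in Filter.atTop, ‖1 - (rt N)⁻¹‖ * (M * C) < κ * c / 8 := by
    have := (Frm.tendsto_rt.norm).mul_const (M * C)
    rw [norm_zero, zero_mul] at this
    exact this.eventually_lt_const (by positivity)
  have ev3 : ∀ᶠ N : ℕ in Filter.atTop, |PR p (p - 1)| * C / (κ * c / 8) ≤ Real.sqrt N :=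
    (Real.tendsto_sqrt_atTop.comp tendsto_natCast_atTop_atTop).eventually_ge_atTop _
  obtain ⟨N0, hN0⟩ := Filter.eventually_atTop.1 ((ev1.and ev2).and ev3)
  refine ⟨κ * c / (2 * S), p * (K * (2 * C)), by positivity, max (max N0 N1) 2, fun N hN => ?_⟩
  have hNN0 : N0 ≤ N := (le_max_left _ _).trans ((le_max_left _ _).trans hN)
  have hNN1 : N1 ≤ N := (le_max_right _ _).trans ((le_max_left _ _).trans hN)
  have hN2 : 2 ≤ N := (le_max_right _ _).trans hN
  obtain ⟨⟨e1, e2⟩, e3⟩ := hN0 N hNN0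
  obtain ⟨f1, f2, f3⟩ := hN1 N hNN1
  have hNpos : (0 : ℝ) < N := by exact_mod_cast (show 0 < N by omega)
  have hN2r : (2 : ℝ) ≤ N := by exact_mod_cast hN2
  set s := Real.sqrt N with hs
  have hsn : 0 ≤ s := Real.sqrt_nonneg _
  have hph : ph N (N - 1) = -(Real.pi / N) := by
    rw [ph, Nat.cast_sub (by omega)]
    push_cast
    field_simp
    ring
  have hphI : ph N (N - 1) ∈ I := by
    rw [hph]
    have : Real.pi / N ≤ Real.pi / 2 := div_le_div_of_nonneg_left hpi.le (by norm_num) hN2r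
    have h3 : 0 < Real.pi / (N : ℝ) := by positivity
    exact ⟨by linarith, by linarith⟩
  set B : ℕ → ℂ := fun j => Bf (rt N) p j (N - 1) with hB
  set x := rt N with hx
  have hBn : ∀ j, j ≤ p → ‖B j‖ ≤ C * s := fun j hj =>
    (f1 j hj).trans (mul_le_mul_of_nonneg_right (le_abs_self _) hsn)
  have hBp : ‖B p‖ ≤ C := f2.trans (le_abs_self _)
  have hxn : ‖x⁻¹‖ = 1 := by
    rw [norm_inv, hx, rt]
    have : (Real.pi * Complex.I / N : ℂ) = ((Real.pi / N : ℝ) : ℂ) * Complex.I := by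
      push_cast; ring
    rw [this, Complex.norm_exp_ofReal_mul_I, inv_one]
  have hDn : ∀ j : Fin p, ‖DV x p (N - 1) j‖ ≤ 2 * C * s := by
    intro j
    have : DV x p (N - 1) j = B (j + 1) - x⁻¹ * B j := rfl
    rw [this]
    refine (norm_sub_le _ _).trans ?_
    rw [norm_mul, hxn, one_mul]
    have := hBn (j + 1) (by omega)
    have := hBn j (by omega)
    linarith
  have hYdef : ∀ m, YV p H N (N - 1) m =
      ∑ j, (QM p H (ph N (N - 1)))⁻¹ m j * DV x p (N - 1) j := fun m => rfl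
  refine ⟨fun m => ?_, fun m₀ hm₀ => ?_⟩
  · rw [hYdef]
    refine (norm_sum_le _ _).trans ?_
    have : ∑ j : Fin p, ‖(QM p H (ph N (N - 1)))⁻¹ m j * DV x p (N - 1) j‖ ≤
        ∑ _j : Fin p, K * (2 * C * s) := by
      refine Finset.sum_le_sum fun j _ => ?_
      rw [norm_mul]
      exact mul_le_mul (((hC0 _ hphI m j).2).trans (le_abs_self _)) (hDn j) (norm_nonneg _) hKn
    refine this.trans (le_of_eq ?_)
    rw [Finset.sum_const, Finset.card_univ, Fintype.card_fin, nsmul_eq_mul]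
    ring
  · have hh0 : H m₀ 0 = -2 * Complex.cos ((Real.pi / p : ℝ) : ℂ) := h0_eq hp hF m₀ hm₀
    have hSc : ∑ j ∈ Finset.range p, PP (H m₀ 0) j * PP (H m₀ 0) j = (S : ℂ) := by
      rw [hS]; push_cast
      refine Finset.sum_congr rfl fun j _ => ?_
      rw [hh0, PP_PR hp]; ring
    have hSne : (S : ℂ) ≠ 0 := by exact_mod_cast hSpos.ne'
    have hrow : ∀ j : Fin p, (QM p H 0)⁻¹ m₀ j = (PR p j : ℂ) / S := by
      intro j
      rw [row hp hF (hdet 0 h0I) m₀ (by rw [hSc]; exact hSne) j, hSc, hh0, PP_PR hp]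
    set T : ℂ := ∑ j ∈ Finset.range p, (PR p j : ℂ) * (B (j + 1) - x⁻¹ * B j) with hT
    have hTS : ∑ j, (QM p H 0)⁻¹ m₀ j * DV x p (N - 1) j = T / S := by
      rw [hT, Finset.sum_div,
        ← Fin.sum_univ_eq_sum_range (fun j => (PR p j : ℂ) * (B (j + 1) - x⁻¹ * B j) / S) p]
      refine Finset.sum_congr rfl fun j _ => ?_
      rw [hrow]
      have : DV x p (N - 1) j = B (j + 1) - x⁻¹ * B j := rfl
      rw [this]; ring
    have hclose : ‖YV p H N (N - 1) m₀ - T / S‖ ≤ p * (η * (2 * C * s)) := by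
      rw [hYdef, ← hTS, ← Finset.sum_sub_distrib]
      refine (norm_sum_le _ _).trans ?_
      have : ∑ j : Fin p, ‖(QM p H (ph N (N - 1)))⁻¹ m₀ j * DV x p (N - 1) j -
          (QM p H 0)⁻¹ m₀ j * DV x p (N - 1) j‖ ≤ ∑ _j : Fin p, η * (2 * C * s) := by
        refine Finset.sum_le_sum fun j _ => ?_
        rw [← sub_mul, norm_mul]
        refine mul_le_mul ?_ (hDn j) (norm_nonneg _) hηpos.le
        have h3 := hδ' (ph N (N - 1)) hphI 0 h0I (by
          rw [Real.dist_eq, hph, sub_zero, abs_neg, abs_of_pos (by positivity)]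
          exact e1)
        have h4 := (dist_pi_lt_iff hηpos).1 h3 m₀
        have h5 := (dist_pi_lt_iff hηpos).1 h4 j
        rw [dist_eq_norm] at h5
        exact h5.le
      refine this.trans (le_of_eq ?_)
      rw [Finset.sum_const, Finset.card_univ, Fintype.card_fin, nsmul_eq_mul]
    have hB0 : B 0 = 0 := by
      simp only [hB]
      rw [Bf]
    have hTsplit : T = ∑ j ∈ Finset.range p, (PR p j : ℂ) * (B (j + 1) - B j) +
        (1 - x⁻¹) * ∑ j ∈ Finset.range p, (PR p j : ℂ) * B j := by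
      rw [hT, Finset.mul_sum, ← Finset.sum_add_distrib]
      refine Finset.sum_congr rfl fun j _ => ?_
      ring
    rw [main_sum hp B hB0] at hTsplit
    set W : ℂ := ∑ j ∈ Finset.range p, (-1) ^ j * (Real.sin (j * Real.pi / p) : ℂ) * B j with hW
    have hWn : c * s ≤ ‖W‖ := f3
    have hR : ‖∑ j ∈ Finset.range p, (PR p j : ℂ) * B j‖ ≤ M * (C * s) := by
      refine (norm_sum_le _ _).trans ?_
      rw [hM, Finset.sum_mul]
      refine Finset.sum_le_sum fun j hj => ?_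
      rw [norm_mul, Complex.norm_real, Real.norm_eq_abs]
      exact mul_le_mul_of_nonneg_left (hBn j (Finset.mem_range.1 hj).le) (abs_nonneg _)
    have hTn : κ * (c * s) - |PR p (p - 1)| * C - ‖1 - x⁻¹‖ * (M * (C * s)) ≤ ‖T‖ := by
      have h3 : ‖(κ : ℂ) * W‖ = κ * ‖W‖ := by
        rw [norm_mul, Complex.norm_real, Real.norm_eq_abs, abs_of_pos hκ]
      have h4 : (κ : ℂ) * W = (PR p (p - 1) : ℂ) * B p +
          (1 - x⁻¹) * ∑ j ∈ Finset.range p, (PR p j : ℂ) * B j - T := by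
        rw [hTsplit]; ring
      have h5 : ‖(κ : ℂ) * W‖ ≤ ‖(PR p (p - 1) : ℂ) * B p‖ +
          ‖(1 - x⁻¹) * ∑ j ∈ Finset.range p, (PR p j : ℂ) * B j‖ + ‖T‖ := by
        rw [h4]
        exact (norm_sub_le _ _).trans (add_le_add_left (norm_add_le _ _) _)
      rw [h3, norm_mul, norm_mul, Complex.norm_real, Real.norm_eq_abs] at h5
      have h6 : |PR p (p - 1)| * ‖B p‖ ≤ |PR p (p - 1)| * C :=
        mul_le_mul_of_nonneg_left hBp (abs_nonneg _)
      have h7 := mul_le_mul_of_nonneg_left hR (norm_nonneg (1 - x⁻¹))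
      have h8 := mul_le_mul_of_nonneg_left hWn hκ.le
      linarith
    have g2 : ‖1 - x⁻¹‖ * (M * (C * s)) ≤ κ * c / 8 * s := by
      have : ‖1 - x⁻¹‖ * (M * (C * s)) = ‖1 - x⁻¹‖ * (M * C) * s := by ring
      rw [this]
      exact mul_le_mul_of_nonneg_right e2.le hsn
    have g3 : |PR p (p - 1)| * C ≤ κ * c / 8 * s := by
      rw [div_le_iff₀ (by positivity)] at e3
      linarith
    have g4 : S * (p * (η * (2 * C * s))) ≤ κ * c / 8 * s := by
      have h3 : S * (p * (η * (2 * C * s))) = (S * (p * (2 * C))) * η * s := by ring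
      have h4 : (S * (p * (2 * C))) * η ≤ κ * c / 8 := by
        rw [hη, mul_div_assoc', div_le_iff₀ (by positivity)]
        have : 0 ≤ κ * c := by positivity
        nlinarith
      rw [h3]
      exact mul_le_mul_of_nonneg_right h4 hsn
    have g5 : ‖T‖ / S - p * (η * (2 * C * s)) ≤ ‖YV p H N (N - 1) m₀‖ := by
      have h3 : ‖T / S‖ = ‖T‖ / S := by
        rw [norm_div, Complex.norm_real, Real.norm_eq_abs, abs_of_pos hSpos]
      rw [← h3]
      have h4 := norm_sub_norm_le (T / S) (YV p H N (N - 1) m₀)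
      rw [norm_sub_rev] at h4
      linarith
    refine le_trans ?_ g5
    have g6 : κ * c / 2 * s ≤ ‖T‖ - S * (p * (η * (2 * C * s))) := by
      have : κ * (c * s) = κ * c * s := by ring
      have h9 : 0 ≤ κ * c * s := by positivity
      linarith
    have g7 : κ * c / (2 * S) * s = (κ * c / 2 * s) / S := by field_simp
    have g8 : ‖T‖ / S - p * (η * (2 * C * s)) = (‖T‖ - S * (p * (η * (2 * C * s)))) / S := by
      field_simp
    rw [g7, g8]
    exact div_le_div_of_nonneg_right g6 hSpos.le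

end Pool.Agent.Q177.VC.Sta
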